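import Pool.Agent.Lib.MP_c7af3c_ag.GEN.Groups

/-!
# MP_c7af3c_ag, project GEN, module GGEN: a geometric generic point
-/

set_option autoImplicit false

namespace Pool.Agent.Gen.H83

open AlgebraicGeometry CategoryTheory CategoryTheory.Limits

theorem isDominant_generic (X : Scheme.{0}) [AlgebraicGeometry.IsIntegral X] (T : Scheme.{0})
    [Nonempty T] (j : T ⟶ Spec (X.residueField (genericPoint X))) :
    IsDominant (j ≫ X.fromSpecResidueField (genericPoint X)) := by
  refine ⟨?_⟩
  have hx : genericPoint X ∈ Set.range (j ≫ X.fromSpecResidueField (genericPoint X)) := by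
    obtain ⟨z⟩ : Nonempty T := inferInstance
    refine ⟨z, ?_⟩
    rw [Scheme.Hom.comp_apply]
    exact Scheme.fromSpecResidueField_apply (X := X) (genericPoint X) (j z)
  rw [DenseRange, dense_iff_closure_eq, ← Set.univ_subset_iff]
  have h2 : closure ({genericPoint X} : Set X) = Set.univ := genericPoint_spec X
  rw [← h2]
  exact closure_mono (Set.singleton_subset_iff.2 hx)

theorem ggen : GgenStatement := by
  intro k _ A hA
  have hI : AlgebraicGeometry.IsIntegral A.left := hA
  obtain ⟨K', _, _, P0, hdom⟩ : ∃ (K' : Type) (_ : Field K') (_ : IsAlgClosed K')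
      (P0 : Spec (CommRingCat.of K') ⟶ A.left), IsDominant P0 :=
    ⟨AlgebraicClosure (A.left.residueField (genericPoint A.left)), inferInstance, inferInstance,
      Spec.map (CommRingCat.ofHom (algebraMap (A.left.residueField (genericPoint A.left))
        (AlgebraicClosure (A.left.residueField (genericPoint A.left))))) ≫
      A.left.fromSpecResidueField (genericPoint A.left), isDominant_generic _ _ _⟩
  let al : Algebra k K' := (Spec.preimage (P0 ≫ A.hom)).hom.toAlgebra
  have hal : Spec.map (CommRingCat.ofHom (algebraMap k K')) = P0 ≫ A.hom :=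
    Spec.map_preimage (P0 ≫ A.hom)
  refine ⟨K', inferInstance, inferInstance, al, Over.homMk P0 hal.symm, fun Y hY u v huv => ?_⟩
  have h1 : P0 ≫ u.left = P0 ≫ v.left := congrArg (fun w => w.left) huv
  apply Over.OverMorphism.ext
  exact ext_of_isDominant_of_isSeparated Y.hom ((Over.w u).trans (Over.w v).symm) P0 h1

end Pool.Agent.Gen.H83
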