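import Pool.Agent.Lib.MP_c7af3c_ag.GEN.Interfaces

/-!
Modules RIGFF and DIR.
-/

set_option autoImplicit false

namespace Pool.Agent.Gen.H83

open IntermediateField

/-- powers of a transcendental element are independent -/
theorem indep_of_tr {F E : Type} [Field F] [Field E] [Algebra F E] {x : E}
    (h : Transcendental F x) : LinearIndependent F (fun n : ℕ => x ^ n) := by
  rw [linearIndependent_iff']
  intro s g hg i hi
  have h1 : Polynomial.aeval x (∑ i ∈ s, Polynomial.monomial i (g i)) = 0 := by
    rw [map_sum, ← hg]
    exact Finset.sum_congr rfl fun i _ => by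
      rw [Polynomial.aeval_monomial, Algebra.smul_def]
  have h2 := (transcendental_iff.1 h) _ h1
  have h3 := congrArg (fun p => Polynomial.coeff p i) h2
  simp only [Polynomial.finsetSum_coeff, Polynomial.coeff_monomial, Polynomial.coeff_zero] at h3
  rwa [Finset.sum_ite_eq' s i g, if_pos hi] at h3

theorem tr_of_indep {F E : Type} [Field F] [Field E] [Algebra F E] {x : E}
    (h : LinearIndependent F (fun n : ℕ => x ^ n)) : Transcendental F x := by
  rw [transcendental_iff]
  intro p hp
  rw [linearIndependent_iff'] at h
  rw [Polynomial.aeval_eq_sum_range] at hp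
  ext n
  rw [Polynomial.coeff_zero]
  by_cases hn : n ∈ Finset.range (p.natDegree + 1)
  · exact h _ (fun i => p.coeff i) hp n hn
  · rw [Finset.mem_range] at hn
    exact Polynomial.coeff_eq_zero_of_natDegree_lt (by omega)

/-- transfer of algebraicity -/
theorem alg_transfer {A F1 L Ω : Type} [Field A] [Field F1] [Field L] [Field Ω] [Algebra A Ω]
    [Algebra F1 L] {s : Ω} (h : IsAlgebraic A s) (j : L →+* Ω) (s' : L) (hs : j s' = s)
    (hr : ∀ a : A, ∃ b : F1, j (algebraMap F1 L b) = algebraMap A Ω a) : IsAlgebraic F1 s' := by
  obtain ⟨p, hp0, hp⟩ := h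
  have h1 : p.map (algebraMap A Ω) ∈ Polynomial.lifts (j.comp (algebraMap F1 L)) := by
    rw [Polynomial.lifts_iff_coeff_lifts]
    intro n
    rw [Polynomial.coeff_map]
    obtain ⟨b, hb⟩ := hr (p.coeff n)
    exact ⟨b, hb⟩
  rw [Polynomial.mem_lifts] at h1
  obtain ⟨q, hq⟩ := h1
  refine ⟨q, ?_, ?_⟩
  · rintro rfl
    rw [Polynomial.map_zero] at hq
    exact hp0 ((Polynomial.map_eq_zero _).1 hq.symm)
  · apply j.injective
    rw [map_zero, Polynomial.aeval_def, Polynomial.hom_eval₂, hs, ← Polynomial.eval_map, hq,
      Polynomial.eval_map, ← Polynomial.aeval_def, hp]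

/-- finiteness over a larger field -/
theorem fin_of_le {k1 k2 K : Type} [Field k1] [Field k2] [Field K] [Algebra k1 K] [Algebra k2 K]
    (A : IntermediateField k1 K) (B : IntermediateField k2 K) (h : ∀ a ∈ A, a ∈ B)
    (hA : FiniteDimensional A K) : FiniteDimensional B K := by
  obtain ⟨S, hS⟩ := hA.1
  refine ⟨S, ?_⟩
  rw [eq_top_iff]
  intro x _
  have hx : x ∈ Submodule.span A (S : Set K) := by rw [hS]; trivial
  induction hx using Submodule.span_induction with
  | mem y hy => exact Submodule.subset_span hy
  | zero => exact Submodule.zero_mem _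
  | add y z _ _ hy hz => exact Submodule.add_mem _ (hy trivial) (hz trivial)
  | smul a y _ hy =>
    have h1 : a • y = (⟨(a : K), h a a.2⟩ : B) • y := rfl
    rw [h1]
    exact Submodule.smul_mem _ _ (hy trivial)

theorem rigff : RigffStatement := by
  intro C Ω _ _ _ _ KK EE hld ε hε htr S hS hSalg
  set L := IntermediateField.adjoin KK (insert ε S) with hL
  have hεL : ε ∈ L := IntermediateField.subset_adjoin _ _ (Set.mem_insert _ _)
  set ε' : L := ⟨ε, hεL⟩ with hε'
  have hind : LinearIndependent C (fun n : ℕ => (⟨ε, hε⟩ : EE) ^ n) := by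
    exact indep_of_tr ((transcendental_algebraMap_iff (algebraMap EE Ω).injective).1 htr)
  have hind2 := hld.linearIndependent_right hind
  have htrKK : Transcendental KK ε := by
    refine tr_of_indep ?_
    have h1 : (fun n : ℕ => ε ^ n) = (EE.val ∘ fun n : ℕ => (⟨ε, hε⟩ : EE) ^ n) := by
      funext n
      simp
    rw [h1]
    exact hind2
  have htr' : Transcendental KK ε' :=
    (transcendental_algebraMap_iff (algebraMap L Ω).injective).1 htrKK
  refine ⟨htr', ?_, ?_⟩
  · set F1 := IntermediateField.adjoin KK {ε'} with hF1
    set S' : Set L := {x | (x : Ω) ∈ S} with hS'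
    have hS'fin : S'.Finite := hS.preimage (Set.injOn_of_injective Subtype.val_injective)
    have : Finite S' := hS'fin
    have hint : ∀ x ∈ S', IsIntegral F1 x := by
      intro x hx
      rw [← isAlgebraic_iff_isIntegral]
      refine alg_transfer (hSalg _ hx).2 (algebraMap L Ω) x rfl ?_
      rintro ⟨a, ha⟩
      induction ha using IntermediateField.adjoin_induction with
      | mem a ha =>
        rw [Set.mem_singleton_iff] at ha
        subst ha
        exact ⟨⟨ε', IntermediateField.mem_adjoin_simple_self KK ε'⟩, rfl⟩
      | algebraMap c =>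
        exact ⟨algebraMap KK F1 (algebraMap C KK c), rfl⟩
      | add a b _ _ ha hb =>
        obtain ⟨x, hx⟩ := ha
        obtain ⟨y, hy⟩ := hb
        refine ⟨x + y, ?_⟩
        rw [map_add, map_add, hx, hy]
        rfl
      | inv a _ ha =>
        obtain ⟨x, hx⟩ := ha
        refine ⟨x⁻¹, ?_⟩
        rw [map_inv₀, map_inv₀, hx]
        rfl
      | mul a b _ _ ha hb =>
        obtain ⟨x, hx⟩ := ha
        obtain ⟨y, hy⟩ := hb
        refine ⟨x * y, ?_⟩
        rw [map_mul, map_mul, hx, hy]
        rfl
    have hfd : FiniteDimensional F1 (IntermediateField.adjoin F1 S') :=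
      IntermediateField.finiteDimensional_adjoin hint
    have htop : IntermediateField.adjoin F1 S' = ⊤ := by
      rw [eq_top_iff]
      intro x _
      have h1 : (IntermediateField.adjoin KK (insert ε' S')).map L.val = L := by
        rw [IntermediateField.adjoin_map]
        conv_rhs => rw [hL]
        congr 1
        ext y
        constructor
        · rintro ⟨z, rfl | hz, rfl⟩
          · exact Or.inl rfl
          · exact Or.inr hz
        · rintro (rfl | hy)
          · exact ⟨ε', Or.inl rfl, rfl⟩
          · exact ⟨⟨y, IntermediateField.subset_adjoin _ _ (Or.inr hy)⟩, Or.inr hy, rfl⟩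
      have h2 : (x : Ω) ∈ (IntermediateField.adjoin KK (insert ε' S')).map L.val := by
        rw [h1]
        exact x.2
      obtain ⟨y, hy, hyx⟩ := h2
      have hyx' : y = x := Subtype.ext hyx
      rw [← hyx']
      have hB : ∀ z ∈ F1, z ∈ IntermediateField.adjoin F1 S' := fun z hz =>
        (IntermediateField.adjoin F1 S').algebraMap_mem ⟨z, hz⟩
      clear hyx' hyx h1
      induction hy using IntermediateField.adjoin_induction with
      | mem z hz =>
        rcases hz with rfl | hz
        · exact hB _ (IntermediateField.mem_adjoin_simple_self KK _)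
        · exact IntermediateField.subset_adjoin _ _ hz
      | algebraMap c => exact hB _ (IntermediateField.algebraMap_mem _ _)
      | add a b _ _ ha hb => exact add_mem ha hb
      | inv a _ ha => exact inv_mem ha
      | mul a b _ _ ha hb => exact mul_mem ha hb
    rw [htop] at hfd
    exact (IntermediateField.topEquiv (F := F1) (E := L)).toLinearEquiv.finiteDimensional
  · exact charZero_of_injective_algebraMap (algebraMap C KK).injective

theorem dir : DirStatement := by
  intro k0 K _ _ _ _ N T i
  refine ⟨⟨?_, ?_, ?_⟩, ?_⟩
  · rw [dirκ, IntermediateField.transcendental_adjoin_iff]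
    exact T.indep.transcendental_adjoin (fun h => h rfl)
  · refine fin_of_le (IntermediateField.adjoin k0 (Set.range T.t)) _ ?_ T.fin
    intro a ha
    have hB : ∀ z ∈ dirκ (k0 := k0) T.t i,
        z ∈ IntermediateField.adjoin (dirκ (k0 := k0) T.t i) {T.t i} := fun z hz =>
      (IntermediateField.adjoin (dirκ (k0 := k0) T.t i) {T.t i}).algebraMap_mem ⟨z, hz⟩
    induction ha using IntermediateField.adjoin_induction with
    | mem f hf =>
      obtain ⟨j, rfl⟩ := hf
      by_cases hj : j = i
      · subst hj
        exact IntermediateField.mem_adjoin_simple_self _ _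
      · exact hB _ (IntermediateField.subset_adjoin _ _ ⟨j, hj, rfl⟩)
    | algebraMap c => exact hB _ (IntermediateField.algebraMap_mem _ _)
    | add a b _ _ ha hb => exact add_mem ha hb
    | inv a _ ha => exact inv_mem ha
    | mul a b _ _ ha hb => exact mul_mem ha hb
  · exact charZero_of_injective_algebraMap (algebraMap k0 (dirκ (k0 := k0) T.t i)).injective
  · intro j f hf
    induction hf using IntermediateField.adjoin_induction with
    | mem f hf =>
      obtain ⟨u, -, rfl⟩ := hf
      rw [T.dual]
      split_ifs
      · exact one_mem _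
      · exact zero_mem _
    | algebraMap c =>
      rw [Derivation.map_algebraMap]
      exact zero_mem _
    | add a b _ _ ha hb =>
      rw [map_add]
      exact add_mem ha hb
    | inv a ha' ha =>
      rw [Derivation.leibniz_inv, smul_eq_mul]
      exact mul_mem (neg_mem (pow_mem (inv_mem ha') 2)) ha
    | mul a b ha' hb' ha hb =>
      rw [Derivation.leibniz, smul_eq_mul, smul_eq_mul]
      exact add_mem (mul_mem ha' hb) (mul_mem hb' ha)

end Pool.Agent.Gen.H83
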